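import Pool.Agent.CB9.Main

/-!
# `RT22` is not computably reducible to `RT22(p)` for `p = 120` and `p = 102`

Negative answer to Q1 of MP_cb9c95_lc.  The proof: `Pool/Agent/CB9/*.lean`
(outline in `Pool/Agent/CB9/Blueprint.lean.txt`).
-/

namespace Pool.Agent.Results.MP_cb9c95_lc.SeparableFails

/-! ### Instances, solutions, computability -/

/-- A real, as an oracle for Mathlib's `RecursiveIn`. -/
def oracle (x : ℕ → Bool) : ℕ →. ℕ := fun n => Part.some (if x n then 1 else 0)

/-- `y` is computable from the join of the reals in `O`. -/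
def ComputableFrom (O : Set (ℕ → Bool)) (y : ℕ → Bool) : Prop :=
  RecursiveIn (oracle '' O) (oracle y)

/-- The real coding a colouring of pairs: bit number `⟨x, y⟩` is `f x y` if `x < y`, and
`false` otherwise. -/
def code (f : ℕ → ℕ → Bool) : ℕ → Bool := fun n =>
  decide ((Nat.unpair n).1 < (Nat.unpair n).2) && f (Nat.unpair n).1 (Nat.unpair n).2

open Classical in
/-- The characteristic function of a set. -/
noncomputable def chi (H : Set ℕ) : ℕ → Bool := fun n => decide (n ∈ H)

/-- `H` is homogeneous for the colouring `f`. -/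
def Homogeneous (f : ℕ → ℕ → Bool) (H : Set ℕ) : Prop :=
  ∃ c, ∀ x ∈ H, ∀ y ∈ H, x < y → f x y = c

/-- `H` `f`-avoids the pattern `p` of size `ℓ`. -/
def Avoids {ℓ : ℕ} (p : Fin ℓ → Fin ℓ → Bool) (f : ℕ → ℕ → Bool) (H : Set ℕ) : Prop :=
  ¬ ∃ x : Fin ℓ → ℕ, StrictMono x ∧ (∀ i, x i ∈ H) ∧ ∀ i j, i < j → f (x i) (x j) = p i j

/-- `RT22` is computably reducible to `RT22(p)`. -/
def Reduces {ℓ : ℕ} (p : Fin ℓ → Fin ℓ → Bool) : Prop :=
  ∀ f : ℕ → ℕ → Bool, ∃ g : ℕ → ℕ → Bool, ComputableFrom {code f} (code g) ∧
    ∀ G : Set ℕ, G.Infinite → Avoids p g G →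
      ∃ H : Set ℕ, H.Infinite ∧ Homogeneous f H ∧ ComputableFrom {code f, chi G} (chi H)

/-! ### Permutations as value sequences -/

/-- Direct sum. -/
def dsum (π σ : List ℕ) : List ℕ := π ++ σ.map (· + π.length)

/-- Skew sum. -/
def ssum (π σ : List ℕ) : List ℕ := π.map (· + σ.length) ++ σ

/-- Separable permutations. -/
inductive Separable : List ℕ → Prop
  | one : Separable [0]
  | dsum {π σ : List ℕ} : Separable π → Separable σ → Separable (dsum π σ)
  | ssum {π σ : List ℕ} : Separable π → Separable σ → Separable (ssum π σ)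

/-- The pattern of a permutation (`false` is colour `0`, `true` is colour `1`). -/
def pat (π : List ℕ) : Fin π.length → Fin π.length → Bool :=
  fun x y => if π.get x < π.get y then false else true

/-- `π` contains `σ` as a sub-pattern. -/
def Contains (σ π : List ℕ) : Prop :=
  ∃ x : Fin σ.length → Fin π.length, StrictMono x ∧
    ∀ i j, i < j → pat π (x i) (x j) = pat σ i j

/-- A colouring is stable if `lim_y f x y` exists for all `x`. -/
def Stable (f : ℕ → ℕ → Bool) : Prop := ∀ x, ∃ c N, ∀ y, N ≤ y → f x y = c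

/-- The negative half: one stable colouring `f` for all patterns containing `120` or `102`. -/
theorem uniform : ∃ f : ℕ → ℕ → Bool, Stable f ∧
    ∀ π : List ℕ, Contains [1, 2, 0] π ∨ Contains [1, 0, 2] π →
      ∀ g : ℕ → ℕ → Bool, ComputableFrom {code f} (code g) →
        ∃ G : Set ℕ, G.Infinite ∧ Avoids (pat π) g G ∧
          ∀ H : Set ℕ, H.Infinite → Homogeneous f H →
            ¬ ComputableFrom {code f, chi G} (chi H) := by
  obtain ⟨f, ⟨A, hA⟩, hf⟩ := CB9.negative
  refine ⟨f, fun x => ⟨A x, hA x⟩, fun π hπ g hg => ?_⟩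
  unfold ComputableFrom at hg ⊢
  rw [Set.image_singleton] at hg
  simp only [Set.image_pair]
  exact hf π hπ g hg

/-- **Main result.** It is not true that `RT22` is computably reducible to `RT22(p)` for every
separable permutation `p`.  More precisely there is a single stable colouring `f` such that
for every permutation `π` containing `120` or `102` (in particular for these two separable
permutations themselves), every `f`-computable colouring `g` has an infinite set `G` avoiding
`π` such that `f ⊕ G` computes no infinite `f`-homogeneous set. -/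
theorem result :
    (¬ ∀ π : List ℕ, Separable π → Reduces (pat π)) ∧
    ∃ f : ℕ → ℕ → Bool, Stable f ∧
      ∀ π : List ℕ, Contains [1, 2, 0] π ∨ Contains [1, 0, 2] π →
        ∀ g : ℕ → ℕ → Bool, ComputableFrom {code f} (code g) →
          ∃ G : Set ℕ, G.Infinite ∧ Avoids (pat π) g G ∧
            ∀ H : Set ℕ, H.Infinite → Homogeneous f H →
              ¬ ComputableFrom {code f, chi G} (chi H) := by
  refine ⟨fun h => ?_, uniform⟩
  have hsep : Separable [1, 2, 0] := by
    have h1 : Separable (dsum [0] [0]) := Separable.dsum Separable.one Separable.one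
    exact Separable.ssum h1 Separable.one
  obtain ⟨f, -, hf⟩ := uniform
  obtain ⟨g, hg, h3⟩ := h _ hsep f
  obtain ⟨G, k1, k2, k3⟩ := hf [1, 2, 0] (Or.inl ⟨id, strictMono_id, fun _ _ _ => rfl⟩) g hg
  obtain ⟨H, l1, l2, l3⟩ := h3 G k1 k2
  exact k3 H l1 l2 l3

end Pool.Agent.Results.MP_cb9c95_lc.SeparableFails
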